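import Pool.Agent.Helper35.MS.StJ

/-!
Project MS (MP_925021_gt), module BRJ: the barrier by balls, for flows on an open set of times.
Adapted from `Helper82/CL/M_BP.lean` and `Helper4/CL/M_BR.lean`.
-/

set_option autoImplicit false

namespace Helper12.MS

open Helper35.MS Helper35.PI Helper35.PI2 Helper32.CL Pool.Agent.Helper35.CL
open scoped ContDiff Manifold Topology ENNReal BigOperators
open MeasureTheory Set Filter

/-- derivative of powers of the positive part -/
private theorem posPow (k : ℕ) (hk : 1 ≤ k) (v : ℝ) :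
    HasDerivAt (fun v : ℝ => (max 0 v) ^ (k + 1)) (((k + 1 : ℕ) : ℝ) * (max 0 v) ^ k) v := by
  have hk0 : k ≠ 0 := by omega
  rcases lt_trichotomy v 0 with h | h | h
  · rw [max_eq_left h.le, zero_pow hk0, mul_zero]
    have h1 : (fun v : ℝ => (max 0 v) ^ (k + 1)) =ᶠ[𝓝 v] fun _ => 0 := by
      filter_upwards [Iio_mem_nhds h] with w hw
      rw [max_eq_left (le_of_lt hw), zero_pow (by omega)]
    exact (hasDerivAt_const v (0 : ℝ)).congr_of_eventuallyEq h1
  · subst h
    rw [max_self, zero_pow hk0, mul_zero]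
    have h1 : HasDerivWithinAt (fun v : ℝ => (max 0 v) ^ (k + 1)) 0 (Iic 0) 0 := by
      refine (hasDerivWithinAt_const (0 : ℝ) (Iic 0) (0 : ℝ)).congr (fun w hw => ?_) ?_
      · rw [max_eq_left hw, zero_pow (by omega)]
      · rw [max_self, zero_pow (by omega)]
    have h2 : HasDerivWithinAt (fun v : ℝ => (max 0 v) ^ (k + 1)) 0 (Ici 0) 0 := by
      have h3 := (hasDerivAt_pow (k + 1) (0 : ℝ)).hasDerivWithinAt (s := Ici 0)
      rw [Nat.add_sub_cancel, zero_pow hk0, mul_zero] at h3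
      refine h3.congr (fun w hw => ?_) ?_
      · rw [max_eq_right hw]
      · rw [max_self]
    have h4 := h1.union h2
    rw [Iic_union_Ici, hasDerivWithinAt_univ] at h4
    exact h4
  · rw [max_eq_right h.le]
    have h1 : (fun v : ℝ => (max 0 v) ^ (k + 1)) =ᶠ[𝓝 v] fun v => v ^ (k + 1) := by
      filter_upwards [Ioi_mem_nhds h] with w hw
      rw [max_eq_right (le_of_lt hw)]
    have h2 := hasDerivAt_pow (k + 1) v
    rw [Nat.add_sub_cancel] at h2
    exact h2.congr_of_eventuallyEq h1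

/-- the radial profile of the barrier -/
private theorem zeta_deriv (R s : ℝ) :
    HasDerivAt (fun s : ℝ => (max 0 (s - R ^ 2)) ^ 2) (2 * max 0 (s - R ^ 2)) s := by
  have h := (posPow 1 le_rfl (s - R ^ 2)).comp s ((hasDerivAt_id s).sub_const (R ^ 2))
  simp only [pow_one, mul_one] at h
  norm_num at h
  exact h

private theorem zeta_smooth (R : ℝ) : ContDiff ℝ 1 (fun s : ℝ => (max 0 (s - R ^ 2)) ^ 2) := by
  rw [contDiff_one_iff_deriv]
  refine ⟨fun s => (zeta_deriv R s).differentiableAt, ?_⟩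
  have h : deriv (fun s : ℝ => (max 0 (s - R ^ 2)) ^ 2) = fun s => 2 * max 0 (s - R ^ 2) :=
    funext fun s => (zeta_deriv R s).deriv
  rw [h]
  fun_prop

private theorem bp_J (hPR : StPRJ) (N : ℕ) (M : Type) [TopologicalSpace M]
    [ChartedSpace (EE 2) M] [IsManifold (𝓡 2) ∞ M] (J : Set ℝ) (F : M → ℝ → EE N)
    (hF : IsMCFJ (n := 2) J F) (y : EE N) (R : ℝ) :
    CSTJ J (fun q t => ex F y R q t) ∧
    (∀ q, ∀ t ∈ J, HasDerivAt (fun s => ex F y R q s ^ 3)
      (6 * ex F y R q t ^ 2 * inner ℝ (F q t - y) (HH (n := 2) F q t)) t) ∧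
    ∀ t ∈ J, ContMDiff (𝓡 2) 𝓘(ℝ, EE N) 1 (fun q => ex F y R q t ^ 2 • (F q t - y)) ∧
      ∀ q, 6 * ex F y R q t ^ 2 * inner ℝ (F q t - y) (HH (n := 2) F q t)
        ≤ 6 * (dvg (n := 2) F (fun q => ex F y R q t ^ 2 • (F q t - y)) q t
          + inner ℝ (HH (n := 2) F q t) (ex F y R q t ^ 2 • (F q t - y))) := by
  refine ⟨?_, ?_, ?_⟩
  · have hc : ContinuousOn (fun z : M × ℝ => F z.1 z.2) (univ ×ˢ J) :=
      hF.smooth.continuousOn
    unfold CSTJ ex
    have h1 : ContinuousOn (fun z : M × ℝ => ‖F z.1 z.2 - y‖ ^ 2 - R ^ 2) (univ ×ˢ J) :=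
      (((hc.sub continuousOn_const).norm).pow 2).sub continuousOn_const
    exact ContinuousOn.sup continuousOn_const h1
  · intro q t ht
    have h1 : HasDerivAt (fun s => F q s - y) (HH (n := 2) F q t) t :=
      (hF.flow q t ht).sub_const y
    have h2 : HasDerivAt (fun s => ‖F q s - y‖ ^ 2 - R ^ 2)
        (2 * inner ℝ (F q t - y) (HH (n := 2) F q t)) t := h1.norm_sq.sub_const (R ^ 2)
    have h3 := (posPow 2 (by norm_num) (‖F q t - y‖ ^ 2 - R ^ 2)).comp t h2
    unfold ex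
    have h4 : ((2 + 1 : ℕ) : ℝ) * max 0 (‖F q t - y‖ ^ 2 - R ^ 2) ^ 2 *
        (2 * inner ℝ (F q t - y) (HH (n := 2) F q t)) =
        6 * max 0 (‖F q t - y‖ ^ 2 - R ^ 2) ^ 2 * inner ℝ (F q t - y) (HH (n := 2) F q t) := by
      push_cast
      ring
    rw [← h4]
    exact h3
  · intro t ht
    obtain ⟨r, hr, -, hz⟩ := (hPR 2 N M J F hF.toIsImmJ t ht).2.2.2.2 y
    obtain ⟨hs, -, -, hd⟩ := hz _ (zeta_smooth R)
    refine ⟨hs, fun q => ?_⟩
    have hd' : dvg (n := 2) F (fun q => ex F y R q t ^ 2 • (F q t - y)) q t =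
        2 * ex F y R q t ^ 2 + 2 * (2 * ex F y R q t) * r q := by
      have h := hd q
      rw [(zeta_deriv R _).deriv] at h
      norm_num at h
      exact h
    rw [hd', inner_smul_right, real_inner_comm]
    have he : 0 ≤ ex F y R q t := le_max_left _ _
    have hr0 := (hr q).1
    have h1 := mul_nonneg he hr0
    nlinarith [sq_nonneg (ex F y R q t)]

private theorem CST_slice {M V : Type} [TopologicalSpace M] [TopologicalSpace V] {J : Set ℝ}
    {g : M → ℝ → V} (hg : CSTJ J g) {t : ℝ} (ht : t ∈ J) : Continuous (fun q => g q t) := by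
  have h : Continuous (fun q : M => ((q, t) : M × ℝ)) := by fun_prop
  exact ContinuousOn.comp_continuous hg h (fun q => ⟨mem_univ _, ht⟩)

theorem hBRJ (hPRJ : StPRJ) (hTDJ : StTDJ) (hFVJ : StFVJ) (hFSJ : StFSJ) (hI4J : StI4J)
    (hMUJ : StMUJ) : StBRJ := by
  intro N M _ _ _ _ _ _ _ J F c χ hS y R t₁ t₂ hR h12 hsub hb
  have h2 : t₂ ∈ J := hsub ⟨h12, le_rfl⟩
  have hmcf := hS.mcf
  obtain ⟨hexC, hder, hX⟩ := bp_J hPRJ N M J F hmcf y R
  obtain ⟨hF, hH, -, -⟩ := hI4J 2 N M J F hmcf.toIsImmJ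
  obtain ⟨s, -, hmu⟩ := hMUJ 2 N M J F c χ hS.toJ
  set g : M → ℝ → ℝ := fun q t => ex F y R q t ^ 3 with hg
  set g' : M → ℝ → ℝ := fun q t =>
    6 * ex F y R q t ^ 2 * inner ℝ (F q t - y) (HH (n := 2) F q t) with hg'
  have hgC : CSTJ J g := ContinuousOn.pow hexC 3
  have hgC' : CSTJ J g' := by
    have h1 : ContinuousOn (fun z : M × ℝ => F z.1 z.2 - y) (univ ×ˢ J) :=
      ContinuousOn.sub hF continuousOn_const
    have h2 := ContinuousOn.inner (𝕜 := ℝ) h1 hH
    exact (continuousOn_const.mul (ContinuousOn.pow hexC 2)).mul h2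
  have hD := (hTDJ 2 N M J F c χ hS).2 g g' hgC hgC' (fun q t ht => hder q t ht)
  set e : ℝ → ℝ := fun t => ∫ q, g q t ∂muM 2 F c χ t with he
  have hneg : ∀ t ∈ J, ∫ q, (g' q t - ‖HH (n := 2) F q t‖ ^ 2 * g q t) ∂muM 2 F c χ t ≤ 0 := by
    intro t ht
    obtain ⟨hXc, hXle⟩ := hX t ht
    obtain ⟨hdc, hd0⟩ := hFVJ 2 N M J F c χ hS.toJ t ht _ hXc
    have hHc : Continuous (fun q => HH (n := 2) F q t) := CST_slice hH ht
    have hgc : Continuous (fun q => g q t) := CST_slice hgC ht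
    have hgc' : Continuous (fun q => g' q t) := CST_slice hgC' ht
    have hXcc : Continuous (fun q => ex F y R q t ^ 2 • (F q t - y)) := hXc.continuous
    have hi1 := ((hmu t ht).2.2 (fun q => g' q t - ‖HH (n := 2) F q t‖ ^ 2 * g q t)
      (hgc'.sub ((hHc.norm.pow 2).mul hgc))).1
    have hi2 := ((hmu t ht).2.2 (fun q => 6 *
      (dvg (n := 2) F (fun q => ex F y R q t ^ 2 • (F q t - y)) q t
          + inner ℝ (HH (n := 2) F q t) (ex F y R q t ^ 2 • (F q t - y))))
      (continuous_const.mul (hdc.add (Continuous.inner hHc hXcc)))).1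
    calc ∫ q, (g' q t - ‖HH (n := 2) F q t‖ ^ 2 * g q t) ∂muM 2 F c χ t
        ≤ ∫ q, 6 * (dvg (n := 2) F (fun q => ex F y R q t ^ 2 • (F q t - y)) q t
          + inner ℝ (HH (n := 2) F q t) (ex F y R q t ^ 2 • (F q t - y))) ∂muM 2 F c χ t := by
          refine integral_mono hi1 hi2 fun q => ?_
          have h3 : 0 ≤ ‖HH (n := 2) F q t‖ ^ 2 * g q t := by
            have : 0 ≤ ex F y R q t := le_max_left _ _
            simp only [hg]
            positivity
          have h4 := hXle q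
          simp only [hg'] at *
          linarith
      _ = 0 := by
          rw [integral_const_mul, hd0, mul_zero]
  have hanti : AntitoneOn e (Icc t₁ t₂) := by
    refine antitoneOn_of_deriv_nonpos (convex_Icc _ _) ?_ ?_ ?_
    · intro t ht
      exact (hD t (hsub ht)).continuousAt.continuousWithinAt
    · intro t ht
      rw [interior_Icc] at ht
      exact (hD t (hsub ⟨ht.1.le, ht.2.le⟩)).differentiableAt.differentiableWithinAt
    · intro t ht
      rw [interior_Icc] at ht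
      have h3 := (hD t (hsub ⟨ht.1.le, ht.2.le⟩)).deriv
      change deriv e t ≤ 0
      rw [show deriv e t = _ from h3]
      exact hneg t (hsub ⟨ht.1.le, ht.2.le⟩)
  have he1 : e t₁ = 0 := by
    have h3 : ∀ q, g q t₁ = 0 := by
      intro q
      have h4 : ‖F q t₁ - y‖ ^ 2 ≤ R ^ 2 := pow_le_pow_left₀ (norm_nonneg _) (hb q) 2
      have h5 : ex F y R q t₁ = 0 := max_eq_left (by linarith)
      simp only [hg, h5]
      norm_num
    simp only [he, h3, integral_zero]
  have hnn : ∀ q, 0 ≤ g q t₂ := by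
    intro q
    have : 0 ≤ ex F y R q t₂ := le_max_left _ _
    simp only [hg]
    positivity
  have he2 : e t₂ = 0 := by
    have h3 : e t₂ ≤ e t₁ := hanti ⟨le_refl _, h12⟩ ⟨h12, le_refl _⟩ h12
    have h4 : 0 ≤ e t₂ := integral_nonneg hnn
    linarith
  have hz := hFSJ 2 N M J F c χ hS.toJ t₂ h2 (fun q => g q t₂) (CST_slice hgC h2) hnn he2
  intro q
  by_contra hcon
  push Not at hcon
  have h3 : R ^ 2 < ‖F q t₂ - y‖ ^ 2 := pow_lt_pow_left₀ hcon hR (by norm_num)
  have h4 : 0 < ex F y R q t₂ := lt_max_of_lt_right (by linarith)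
  have h5 : ex F y R q t₂ ^ 3 = 0 := hz q
  have h6 : 0 < ex F y R q t₂ ^ 3 := by positivity
  linarith

end Helper12.MS
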