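import Pool.Agent.Helper35.MS.StC

/-!
Project MS (MP_925021_gt), module CE2: the reaction inequality for `x g/2 ≤ y² ≤ x g`.

With `w = y²/x` right minus left is `d₀ - Q w + 2 w² + y P₁`, `P₁ = d₁ + p w ≥ 0`. For `x ≥ 4/5` the
quadratic part is nonnegative. For `x ≤ 4/5` use `y ≥ σ(x) (w + 5/12) (3/4)`,
`σ(x) = 16x(1+16x)/(1+96x+256x²) ≤ √x`, and the discriminant of the resulting quadratic in `w`.
-/

set_option autoImplicit false

namespace Helper12.MS

open Helper35.MS Helper35.PI Helper35.PI2 Helper32.CL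

/-- right side minus left side -/
private theorem ce2_expand (x y w f f1 γ Γ : ℝ) (h : y ^ 2 = x * w) :
    (f1 + Γ * y) * (x ^ 2 + x + y ^ 2) - γ * (x + (f - γ * y)) * y
      - (y ^ 2 + (f - γ * y) ^ 2 + 2 * w * ((f - γ * y) - w) - (f - γ * y)) =
    (f1 * (x ^ 2 + x) + f - f ^ 2) - (2 * f + (1 - f1) * x) * w + 2 * w ^ 2
      + y * ((Γ * (x ^ 2 + x) - γ * x + γ * (f - 1)) + (Γ * x + 2 * γ) * w) := by
  linear_combination (f1 + Γ * y - 1) * h

private noncomputable def NF (x : ℝ) : ℝ := 400 + 3172 * x + 3565 * x ^ 2 + 1800 * x ^ 3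
private noncomputable def AC (x : ℝ) : ℝ := (1 + 8 * x) * (4 + 5 * x)
private noncomputable def QN (x : ℝ) : ℝ :=
  3200 + 59488 * x + 343128 * x ^ 2 + 758695 * x ^ 3 + 729200 * x ^ 4 + 312000 * x ^ 5
private noncomputable def DN (x : ℝ) : ℝ :=
  80000 + 1268800 * x + 8391216 * x ^ 2 + 19313140 * x ^ 3 + 31225325 * x ^ 4
    + 28746000 * x ^ 5 + 7560000 * x ^ 6

private theorem fm0_eq {x : ℝ} (hx : 0 ≤ x) : fm0 x = NF x / (150 * AC x) := by
  unfold fm0 NF AC
  have h1 : (1 : ℝ) + 8 * x ≠ 0 := by positivity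
  have h2 : (4 : ℝ) + 5 * x ≠ 0 := by positivity
  have h3 : (8 : ℝ) + 10 * x = 2 * (4 + 5 * x) := by ring
  rw [h3]
  field_simp
  ring

private theorem q_eq {x : ℝ} (hx : 0 ≤ x) :
    2 * fm0 x + (1 - fm1 x) * x = QN x / (150 * AC x ^ 2) := by
  rw [fm0_eq hx]
  unfold fm1 NF AC QN
  have h1 : (1 : ℝ) + 8 * x ≠ 0 := by positivity
  have h2 : (4 : ℝ) + 5 * x ≠ 0 := by positivity
  have h3 : (8 : ℝ) + 10 * x = 2 * (4 + 5 * x) := by ring
  rw [h3]
  field_simp
  ring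

private theorem d_eq {x : ℝ} (hx : 0 ≤ x) :
    fm1 x * (x ^ 2 + x) + fm0 x - fm0 x ^ 2 = DN x / (22500 * AC x ^ 2) := by
  rw [fm0_eq hx]
  unfold fm1 NF AC DN
  have h1 : (1 : ℝ) + 8 * x ≠ 0 := by positivity
  have h2 : (4 : ℝ) + 5 * x ≠ 0 := by positivity
  have h3 : (8 : ℝ) + 10 * x = 2 * (4 + 5 * x) := by ring
  rw [h3]
  field_simp
  ring

private theorem fm0_ge {x : ℝ} (hx : 0 ≤ x) : 3 / 5 ≤ fm0 x := by
  rw [fm0_eq hx, le_div_iff₀ (by unfold AC; positivity)]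
  unfold NF AC
  nlinarith [mul_nonneg hx (sq_nonneg (x - 1 / 6)), sq_nonneg (x - 1 / 6)]

private theorem fm0_le {x : ℝ} (hx : 0 ≤ x) (hx2 : x ≤ 4 / 5) : fm0 x ≤ 25 / 36 := by
  rw [fm0_eq hx, div_le_iff₀ (by unfold AC; positivity)]
  unfold NF AC
  nlinarith [mul_nonneg hx (sub_nonneg.2 hx2),
    mul_nonneg (mul_nonneg hx hx) (sub_nonneg.2 hx2)]

/-- the coefficient of `y` -/
private theorem p1_eq {x : ℝ} (hx : 0 ≤ x) (w : ℝ) :
    (gm1 x * (x ^ 2 + x) - gm0 x * x + gm0 x * (fm0 x - 1)) + (gm1 x * x + 2 * gm0 x) * w =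
      3 / (10 * (1 + 16 * x) ^ 2) *
        (15 * x + (fm0 x - 1) * (1 + 16 * x) + (48 * x + 2) * w) := by
  unfold gm0 gm1
  have h1 : (1 : ℝ) + 16 * x ≠ 0 := by positivity
  field_simp
  ring

private theorem p1_nonneg {x w : ℝ} (hx : 0 ≤ x) (hw : 11 / 40 ≤ w) :
    0 ≤ 15 * x + (fm0 x - 1) * (1 + 16 * x) + (48 * x + 2) * w := by
  have h1 := fm0_ge hx
  have h2 : (3 / 5 - 1) * (1 + 16 * x) ≤ (fm0 x - 1) * (1 + 16 * x) :=
    mul_le_mul_of_nonneg_right (by linarith) (by positivity)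
  have h3 : (48 * x + 2) * (11 / 40) ≤ (48 * x + 2) * w :=
    mul_le_mul_of_nonneg_left hw (by positivity)
  linarith

/-- lower bound for `y` -/
private theorem y_ge {x y w : ℝ} (hx : 0 < x) (hy : 0 ≤ y) (h : y ^ 2 = x * w)
    (hw1 : 1 / 4 ≤ w) (hw2 : w ≤ 25 / 36) :
    16 * x * (1 + 16 * x) / (1 + 96 * x + 256 * x ^ 2) * ((w + 5 / 12) * (3 / 4)) ≤ y := by
  have hS : 0 < 1 + 96 * x + 256 * x ^ 2 := by positivity
  have h1 : (16 * x * (1 + 16 * x) / (1 + 96 * x + 256 * x ^ 2)) ^ 2 ≤ x := by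
    rw [div_pow, div_le_iff₀ (by positivity)]
    have : 0 ≤ x * (16 * x - 1) ^ 4 := by positivity
    nlinarith
  have h2 : ((w + 5 / 12) * (3 / 4)) ^ 2 ≤ w := by
    nlinarith [mul_nonneg (sub_nonneg.2 hw1) (sub_nonneg.2 hw2)]
  have h3 : (16 * x * (1 + 16 * x) / (1 + 96 * x + 256 * x ^ 2) * ((w + 5 / 12) * (3 / 4))) ^ 2
      ≤ y ^ 2 := by
    rw [mul_pow, h]
    exact mul_le_mul h1 h2 (sq_nonneg _) hx.le
  exact (abs_le_of_sq_le_sq' h3 hy).2

/-- the polynomial of the discriminant -/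
private theorem poly_pos {x : ℝ} (hx : 0 ≤ x) (hx2 : x ≤ 4 / 5) :
    0 ≤ 104960000 + 16858803200 * x + 905378177280 * x ^ 2 + 22357476374208 * x ^ 3
      + 353656571078304 * x ^ 4 + 4215666319647821 * x ^ 5 + 30584891116028212 * x ^ 6
      + 75525382308757812 * x ^ 7 - 296282669685761280 * x ^ 8 - 1488765903184422400 * x ^ 9
      + 1752154799451136000 * x ^ 10 + 20017165964544000000 * x ^ 11
      + 42813287509196800000 * x ^ 12 + 38748254699520000000 * x ^ 13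
      + 13158622167040000000 * x ^ 14 - 80530636800000000 * x ^ 15 := by
  have hz : 0 ≤ 4 - 5 * x := by linarith
  have key : 4 ^ 15 * (104960000 + 16858803200 * x + 905378177280 * x ^ 2
      + 22357476374208 * x ^ 3
      + 353656571078304 * x ^ 4 + 4215666319647821 * x ^ 5 + 30584891116028212 * x ^ 6
      + 75525382308757812 * x ^ 7 - 296282669685761280 * x ^ 8 - 1488765903184422400 * x ^ 9
      + 1752154799451136000 * x ^ 10 + 20017165964544000000 * x ^ 11
      + 42813287509196800000 * x ^ 12 + 38748254699520000000 * x ^ 13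
      + 13158622167040000000 * x ^ 14 - 80530636800000000 * x ^ 15) =
      104960000 * (4 - 5 * x) ^ 15 + 75307212800 * x * (4 - 5 * x) ^ 14
      + 19482035732480 * x ^ 2 * (4 - 5 * x) ^ 13
      + 2531856501440512 * x ^ 3 * (4 - 5 * x) ^ 12
      + 207794436786540544 * x ^ 4 * (4 - 5 * x) ^ 11
      + 12218326793630413824 * x ^ 5 * (4 - 5 * x) ^ 10
      + 511857654733021079552 * x ^ 6 * (4 - 5 * x) ^ 9
      + 14102725361323629339648 * x ^ 7 * (4 - 5 * x) ^ 8
      + 230201154139352518103040 * x ^ 8 * (4 - 5 * x) ^ 7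
      + 1831685613479916009523200 * x ^ 9 * (4 - 5 * x) ^ 6
      + 2611589147560525041152000 * x ^ 10 * (4 - 5 * x) ^ 5
      + 18848203798472492038400000 * x ^ 11 * (4 - 5 * x) ^ 4
      + 1884270748651132092019200000 * x ^ 12 * (4 - 5 * x) ^ 3
      + 24312210942929346244624000000 * x ^ 13 * (4 - 5 * x) ^ 2
      + 122995228119061398656160000000 * x ^ 14 * (4 - 5 * x)
      + 223744784358304559077200000000 * x ^ 15 := by ring
  have h2 : (0 : ℝ) < 4 ^ 15 := by norm_num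
  refine nonneg_of_mul_nonneg_right ?_ h2
  rw [key]
  positivity

private noncomputable def M2 (x : ℝ) : ℝ := 5 + 578 * x + 9392 * x ^ 2 + 20480 * x ^ 3
private noncomputable def M1 (x : ℝ) : ℝ :=
  16000 + 2067840 * x + 62057736 * x ^ 2 + 769495109 * x ^ 3 + 4588639178 * x ^ 4
    + 14003583360 * x ^ 5 + 22102800000 * x ^ 6 + 17708800000 * x ^ 7 + 6389760000 * x ^ 8
private noncomputable def M0 (x : ℝ) : ℝ :=
  40000 + 5024400 * x + 147635808 * x ^ 2 + 1812838691 * x ^ 3 + 11431375076 * x ^ 4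
    + 36678133008 * x ^ 5 + 69502417920 * x ^ 6 + 90258841600 * x ^ 7 + 65645568000 * x ^ 8
    + 15482880000 * x ^ 9

private theorem disc_eq (x : ℝ) :
    80 * (AC x ^ 2 * M2 x * M0 x) - M1 x ^ 2 =
      3 * x * (104960000 + 16858803200 * x + 905378177280 * x ^ 2 + 22357476374208 * x ^ 3
      + 353656571078304 * x ^ 4 + 4215666319647821 * x ^ 5 + 30584891116028212 * x ^ 6
      + 75525382308757812 * x ^ 7 - 296282669685761280 * x ^ 8 - 1488765903184422400 * x ^ 9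
      + 1752154799451136000 * x ^ 10 + 20017165964544000000 * x ^ 11
      + 42813287509196800000 * x ^ 12 + 38748254699520000000 * x ^ 13
      + 13158622167040000000 * x ^ 14 - 80530636800000000 * x ^ 15) := by
  unfold AC M2 M1 M0
  ring

private theorem low_eq {x : ℝ} (hx : 0 ≤ x) (w : ℝ) :
    DN x / (22500 * AC x ^ 2) - QN x / (150 * AC x ^ 2) * w + 2 * w ^ 2
      + 16 * x * (1 + 16 * x) / (1 + 96 * x + 256 * x ^ 2) * ((w + 5 / 12) * (3 / 4))
        * (3 / (10 * (1 + 16 * x) ^ 2) *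
          (15 * x + (NF x / (150 * AC x) - 1) * (1 + 16 * x) + (48 * x + 2) * w)) =
    (9000 * (AC x ^ 2 * M2 x) * w ^ 2 - 30 * M1 x * w + 2 * M0 x) /
      (22500 * AC x ^ 2 * (1 + 96 * x + 256 * x ^ 2) * (1 + 16 * x)) := by
  have h1 : (1 : ℝ) + 8 * x ≠ 0 := by positivity
  have h2 : (4 : ℝ) + 5 * x ≠ 0 := by positivity
  have h3 : (1 : ℝ) + 16 * x ≠ 0 := by positivity
  have h4 : (1 : ℝ) + 96 * x + 256 * x ^ 2 ≠ 0 := by positivity
  unfold DN QN NF AC M2 M1 M0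
  field_simp
  ring

/-- `8 d₀ ≥ Q²` for `4/5 ≤ x ≤ 10` -/
private theorem discB {x : ℝ} (hx : 4 / 5 ≤ x) (hx2 : x ≤ 10) :
    0 ≤ 8 * DN x * AC x ^ 2 - QN x ^ 2 := by
  have hz : 0 ≤ 5 * x - 4 := by linarith
  have hz2 : 0 ≤ 9316352 - 12288 * (5 * x - 4) := by linarith
  have key : 8 * DN x * AC x ^ 2 - QN x ^ 2 = (3 / 625 : ℝ) *
      (2848051843072
        + 12247009130496 * (5 * x - 4)
        + 14738511417088 * (5 * x - 4) ^ 2
        + 8821448411136 * (5 * x - 4) ^ 3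
        + 3117795619824 * (5 * x - 4) ^ 4
        + 694963482472 * (5 * x - 4) ^ 5
        + 99084909765 * (5 * x - 4) ^ 6
        + 8775210528 * (5 * x - 4) ^ 7
        + 438839680 * (5 * x - 4) ^ 8
        + (5 * x - 4) ^ 9 * (9316352 - 12288 * (5 * x - 4))) := by
    unfold DN AC QN
    ring
  rw [key]
  positivity

/-- `Q ≥ 4 f` for `x ≥ 10` -/
private theorem q4f {x : ℝ} (hx : 10 ≤ x) : 0 ≤ QN x - 4 * NF x * AC x := by
  have hz : 0 ≤ x - 10 := by linarith
  have key : QN x - 4 * NF x * AC x = 993510360 + 673028676 * (x - 10)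
      + 166035282 * (x - 10) ^ 2 + 19390755 * (x - 10) ^ 3 + 1092400 * (x - 10) ^ 4
      + 24000 * (x - 10) ^ 5 := by
    unfold QN NF AC
    ring
  rw [key]
  positivity

/-- the quadratic part at `w = f` -/
private theorem qf {x : ℝ} (hx : 0 ≤ x) :
    0 ≤ DN x * AC x - QN x * NF x + 2 * NF x ^ 2 * AC x := by
  have key : DN x * AC x - QN x * NF x + 2 * NF x ^ 2 * AC x =
      4 * (80000 + 1557600 * x + 12561600 * x ^ 2 + 44957228 * x ^ 3 + 38207655 * x ^ 4
        + 23832600 * x ^ 5 + 73463000 * x ^ 6 + 67800000 * x ^ 7) := by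
    unfold DN QN NF AC
    ring
  rw [key]
  positivity

/-- the quadratic part is nonnegative for `x ≥ 4/5` -/
private theorem quad_nonneg {x w : ℝ} (hx : 4 / 5 ≤ x) (hw : w ≤ NF x / (150 * AC x)) :
    0 ≤ DN x / (22500 * AC x ^ 2) - QN x / (150 * AC x ^ 2) * w + 2 * w ^ 2 := by
  have hx0 : 0 ≤ x := by linarith
  have hA : 0 < AC x := by unfold AC; positivity
  have hA' := hA.ne'
  rcases le_total x 10 with h | h
  · have h1 := discB hx h
    have h2 : DN x / (22500 * AC x ^ 2) - QN x / (150 * AC x ^ 2) * w + 2 * w ^ 2 =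
        2 * (w - QN x / (600 * AC x ^ 2)) ^ 2 +
          (8 * DN x * AC x ^ 2 - QN x ^ 2) / (180000 * AC x ^ 4) := by
      field_simp
      ring
    rw [h2]
    positivity
  · have h1 := q4f h
    have h2 := qf hx0
    have h3 : DN x / (22500 * AC x ^ 2) - QN x / (150 * AC x ^ 2) * w + 2 * w ^ 2 =
        2 * (NF x / (150 * AC x) - w) ^ 2
          + (QN x - 4 * NF x * AC x) / (150 * AC x ^ 2) * (NF x / (150 * AC x) - w)
          + (DN x * AC x - QN x * NF x + 2 * NF x ^ 2 * AC x) / (22500 * AC x ^ 3) := by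
      field_simp
      ring
    rw [h3]
    have h4 : 0 ≤ NF x / (150 * AC x) - w := by linarith
    positivity

/-- a quadratic with nonpositive discriminant -/
private theorem quad_disc {a b c w : ℝ} (ha : 0 < a) (h : b ^ 2 ≤ 4 * a * c) :
    0 ≤ a * w ^ 2 - b * w + c := by
  have h1 : 0 ≤ (2 * a * w - b) ^ 2 := sq_nonneg _
  have h2 : 4 * a * (a * w ^ 2 - b * w + c) = (2 * a * w - b) ^ 2 + (4 * a * c - b ^ 2) := by ring
  have h3 : 0 ≤ 4 * a * (a * w ^ 2 - b * w + c) := by rw [h2]; linarith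
  exact nonneg_of_mul_nonneg_right h3 (by linarith)

theorem hCE2 (hCE0 : StCE0) : StCE2 := by
  intro x y hx hy g k hg hk h1 h2
  have hx0 : 0 ≤ x := hx.le
  set w : ℝ := y ^ 2 / x with hwdef
  have hyw : y ^ 2 = x * w := by
    rw [hwdef]; field_simp
  have hg11 : 11 / 20 ≤ g := by
    rw [hg]
    apply hCE0.2.1 x y hx0 hy
    rw [← hg]; exact h2
  have hwg : w ≤ g := by
    rw [hyw] at h2
    exact le_of_mul_le_mul_left h2 hx
  have hwg2 : g / 2 ≤ w := by
    rw [hyw, mul_div_assoc] at h1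
    exact le_of_mul_le_mul_left h1 hx
  have hw11 : 11 / 40 ≤ w := by linarith
  have hγ : 0 < gm0 x := (hCE0.1 x hx0).2.1
  have hgf : g ≤ fm0 x := by
    rw [hg]
    have := mul_nonneg hγ.le hy
    linarith
  have hwf : w ≤ fm0 x := hwg.trans hgf
  have hexp := ce2_expand x y w (fm0 x) (fm1 x) (gm0 x) (gm1 x) hyw
  have hP := p1_nonneg hx0 hw11
  have hP1 : 0 ≤ 3 / (10 * (1 + 16 * x) ^ 2) *
      (15 * x + (fm0 x - 1) * (1 + 16 * x) + (48 * x + 2) * w) := by positivity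
  rw [p1_eq hx0 w, q_eq hx0, d_eq hx0] at hexp
  have main : 0 ≤ DN x / (22500 * AC x ^ 2) - QN x / (150 * AC x ^ 2) * w + 2 * w ^ 2
      + y * (3 / (10 * (1 + 16 * x) ^ 2) *
      (15 * x + (fm0 x - 1) * (1 + 16 * x) + (48 * x + 2) * w)) := by
    rcases le_total x (4 / 5) with h | h
    · have hw2 : w ≤ 25 / 36 := hwf.trans (fm0_le hx0 h)
      have hyL := y_ge hx hy hyw (by linarith) hw2
      have h3 := mul_le_mul_of_nonneg_right hyL hP1
      have h4 := low_eq hx0 w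
      rw [← fm0_eq hx0] at h4
      have hA : 0 < AC x := by unfold AC; positivity
      have hM2 : 0 < M2 x := by unfold M2; positivity
      have h5 : 0 ≤ 9000 * (AC x ^ 2 * M2 x) * w ^ 2 - 30 * M1 x * w + 2 * M0 x := by
        apply quad_disc (by positivity)
        have h6 := disc_eq x
        have h7 := mul_nonneg (mul_nonneg (by norm_num : (0 : ℝ) ≤ 3) hx0) (poly_pos hx0 h)
        rw [← h6] at h7
        nlinarith
      have h6 : 0 ≤ (9000 * (AC x ^ 2 * M2 x) * w ^ 2 - 30 * M1 x * w + 2 * M0 x) /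
          (22500 * AC x ^ 2 * (1 + 96 * x + 256 * x ^ 2) * (1 + 16 * x)) := by positivity
      rw [← h4] at h6
      linarith
    · rw [fm0_eq hx0] at hwf
      have h3 := quad_nonneg h hwf
      have h4 := mul_nonneg hy hP1
      linarith
  rw [hk]
  rw [← hg] at hexp
  linarith

end Helper12.MS
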