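import Pool.Agent.Helper35.MS.StJ

/-!
Project MS (MP_925021_gt): module LDJ (local density for families of immersions on an open set of
times). Adapted from `Helper40/CL/M_LA.lean` and `Helper60/CL/M_LD.lean`.
-/

set_option autoImplicit false

namespace Helper12.MS

open Helper35.MS Helper35.PI Helper35.PI2 Helper32.CL Pool.Agent.Helper35.CL
open scoped ContDiff Manifold Topology ENNReal BigOperators
open MeasureTheory Set Filter

/-- the function `(max 0 v)²` has derivative `2 max 0 v` -/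
private lemma LA_hda (v : ℝ) : HasDerivAt (fun v : ℝ => (max 0 v) ^ 2) (2 * max 0 v) v := by
  rcases lt_trichotomy v 0 with h | h | h
  · have h1 : (fun v : ℝ => (max 0 v) ^ 2) =ᶠ[𝓝 v] fun _ => (0 : ℝ) := by
      filter_upwards [Iio_mem_nhds h] with w hw
      have hw' : w ≤ 0 := le_of_lt hw
      simp [max_eq_left hw']
    have e : 2 * max 0 v = 0 := by rw [max_eq_left h.le]; ring
    rw [e]
    exact (hasDerivAt_const v (0 : ℝ)).congr_of_eventuallyEq h1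
  · subst h
    have e : 2 * max (0 : ℝ) 0 = 0 := by simp
    rw [e, hasDerivAt_iff_isLittleO]
    have h1 : (fun w : ℝ => (max 0 w) ^ 2 - (max (0 : ℝ) 0) ^ 2 - (w - 0) • (0 : ℝ)) =O[𝓝 0]
        fun w : ℝ => w ^ 2 := by
      refine Asymptotics.IsBigO.of_bound 1 (Eventually.of_forall fun w => ?_)
      have h3 : (max 0 w) ^ 2 ≤ w ^ 2 := by
        rcases le_total 0 w with hw | hw
        · rw [max_eq_right hw]
        · rw [max_eq_left hw]; nlinarith [sq_nonneg w]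
      have h4 : (max 0 w) ^ 2 - (max (0 : ℝ) 0) ^ 2 - (w - 0) • (0 : ℝ) = (max 0 w) ^ 2 := by
        simp
      rw [h4, Real.norm_of_nonneg (sq_nonneg _), Real.norm_of_nonneg (sq_nonneg _)]
      linarith
    have h2 : (fun w : ℝ => w ^ 2) =o[𝓝 0] fun w : ℝ => w :=
      Asymptotics.isLittleO_pow_id (by norm_num)
    have h3 := h1.trans_isLittleO h2
    simpa using h3
  · have h1 : (fun v : ℝ => (max 0 v) ^ 2) =ᶠ[𝓝 v] fun w => w ^ 2 := by
      filter_upwards [Ioi_mem_nhds h] with w hw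
      have hw' : 0 ≤ w := le_of_lt hw
      simp [max_eq_right hw']
    have e : 2 * max 0 v = 2 * v := by rw [max_eq_right h.le]
    rw [e]
    have h2 : HasDerivAt (fun w : ℝ => w ^ 2) (2 * v) v := by
      simpa using hasDerivAt_pow 2 v
    exact h2.congr_of_eventuallyEq h1

private lemma LA_cd : ContDiff ℝ 1 (fun v : ℝ => (max 0 v) ^ 2) := by
  rw [contDiff_one_iff_deriv]
  refine ⟨fun v => (LA_hda v).differentiableAt, ?_⟩
  have h : deriv (fun v : ℝ => (max 0 v) ^ 2) = fun v => 2 * max 0 v :=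
    funext fun v => (LA_hda v).deriv
  rw [h]
  exact continuous_const.mul (continuous_const.max continuous_id)

/-- the denominator -/
private noncomputable def LAD (ε s : ℝ) : ℝ := s + ε ^ 2 + (max 0 (-s)) ^ 2 / ε ^ 2

/-- the profile -/
private noncomputable def LAz (r ε s : ℝ) : ℝ := (max 0 (1 - s / r ^ 2)) ^ 2 / LAD ε s

private lemma LAD_pos {ε : ℝ} (hε : 0 < ε) (s : ℝ) : 0 < LAD ε s := by
  unfold LAD
  rcases le_total 0 s with hs | hs
  · have h1 : max 0 (-s) = 0 := max_eq_left (by linarith)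
    rw [h1]
    positivity
  · have h1 : max 0 (-s) = -s := max_eq_right (by linarith)
    rw [h1]
    have h2 : s + ε ^ 2 + (-s) ^ 2 / ε ^ 2 = (s / ε + ε / 2) ^ 2 + 3 / 4 * ε ^ 2 := by
      field_simp
      ring
    rw [h2]
    positivity

private lemma LAD_cd {ε : ℝ} : ContDiff ℝ 1 (LAD ε) := by
  unfold LAD
  exact (contDiff_id.add contDiff_const).add
    ((LA_cd.comp (contDiff_neg (F := ℝ) (𝕜 := ℝ))).div_const _)

private lemma LAD_hd {ε : ℝ} {s : ℝ} (hs : 0 ≤ s) : HasDerivAt (LAD ε) 1 s := by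
  have h1 : HasDerivAt (fun s : ℝ => (max 0 (-s)) ^ 2) (2 * max 0 (-s) * (-1)) s :=
    (LA_hda (-s)).comp s (hasDerivAt_neg s)
  have h2 := (((hasDerivAt_id s).add_const (ε ^ 2)).add (h1.div_const (ε ^ 2)))
  have h3 : max 0 (-s) = 0 := max_eq_left (by linarith)
  rw [h3] at h2
  have h4 : (1 : ℝ) + 2 * 0 * (-1) / ε ^ 2 = 1 := by simp
  rw [h4] at h2
  exact h2

private lemma LAz_cd {r ε : ℝ} (hε : 0 < ε) : ContDiff ℝ 1 (LAz r ε) := by
  unfold LAz
  refine ContDiff.div ?_ LAD_cd (fun s => (LAD_pos hε s).ne')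
  have h1 : ContDiff ℝ 1 (fun s : ℝ => 1 - s / r ^ 2) :=
    contDiff_const.sub (contDiff_id.div_const _)
  exact LA_cd.comp h1

private lemma LAD_eq {ε s : ℝ} (hs : 0 ≤ s) : LAD ε s = s + ε ^ 2 := by
  unfold LAD
  rw [max_eq_left (by linarith : -s ≤ 0)]
  simp

private lemma LAz_eq {r ε s : ℝ} (hs : 0 ≤ s) :
    LAz r ε s = (max 0 (1 - s / r ^ 2)) ^ 2 / (s + ε ^ 2) := by
  unfold LAz
  rw [LAD_eq hs]

private lemma LAz_deriv {r ε s : ℝ} (hε : 0 < ε) (hs : 0 ≤ s) :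
    deriv (LAz r ε) s = (2 * max 0 (1 - s / r ^ 2) * (-(1 / r ^ 2)) * (s + ε ^ 2)
      - (max 0 (1 - s / r ^ 2)) ^ 2 * 1) / (s + ε ^ 2) ^ 2 := by
  have h0 : HasDerivAt (fun s : ℝ => 1 - s / r ^ 2) (-(1 / r ^ 2)) s := by
    have := ((hasDerivAt_id s).div_const (r ^ 2)).const_sub 1
    simpa using this
  have h1 : HasDerivAt (fun s : ℝ => (max 0 (1 - s / r ^ 2)) ^ 2)
      (2 * max 0 (1 - s / r ^ 2) * (-(1 / r ^ 2))) s :=
    HasDerivAt.comp (h₂ := fun v : ℝ => (max 0 v) ^ 2) s (LA_hda (1 - s / r ^ 2)) h0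
  have h2 := h1.div (LAD_hd (ε := ε) hs) (LAD_pos hε s).ne'
  have h3 := h2.deriv
  rw [LAD_eq hs] at h3
  exact h3

/-- the pointwise inequality with real numbers -/
private lemma LA_ineq {s ρ m I h ε r P e : ℝ} (hε : 0 < ε) (hr : 0 < r) (hs : 0 ≤ s)
    (hρs : ρ ≤ s) (hI : I ^ 2 ≤ h ^ 2 * (s - ρ)) (hP : P = s + ε ^ 2)
    (he : m * ρ / P ≤ e) :
    m ^ 2 * (2 * ε ^ 2 / P ^ 2)
      ≤ 2 * (m ^ 2 / P) + 2 * ((2 * m * (-(1 / r ^ 2)) * P - m ^ 2 * 1) / P ^ 2) * ρ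
        + m ^ 2 / P * I + 1 / 8 * (m ^ 2 * h ^ 2) + 4 / r ^ 2 * e := by
  have hP0 : 0 < P := by rw [hP]; positivity
  have h1 : |I * P| ≤ 2 * (s - ρ) + h ^ 2 * P ^ 2 / 8 := by
    have hw : 0 ≤ s - ρ := by linarith
    apply abs_le_of_sq_le_sq
    · have h2 : (I * P) ^ 2 ≤ h ^ 2 * (s - ρ) * P ^ 2 := by
        rw [mul_pow]
        exact mul_le_mul_of_nonneg_right hI (sq_nonneg _)
      nlinarith [sq_nonneg (2 * (s - ρ) - h ^ 2 * P ^ 2 / 8)]
    · positivity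
  have h2 : 0 ≤ m ^ 2 * ((2 * (s - ρ) + h ^ 2 * P ^ 2 / 8 + I * P) / P ^ 2) := by
    have := (abs_le.1 h1).1
    apply mul_nonneg (sq_nonneg _)
    apply div_nonneg _ (sq_nonneg _)
    linarith
  have h3 : 0 ≤ 4 / r ^ 2 * (e - m * ρ / P) := by
    apply mul_nonneg (by positivity)
    linarith
  have h4 : 2 * (m ^ 2 / P) + 2 * ((2 * m * (-(1 / r ^ 2)) * P - m ^ 2 * 1) / P ^ 2) * ρ
        + m ^ 2 / P * I + 1 / 8 * (m ^ 2 * h ^ 2) + 4 / r ^ 2 * e
        - m ^ 2 * (2 * ε ^ 2 / P ^ 2)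
      = m ^ 2 * ((2 * (s - ρ) + h ^ 2 * P ^ 2 / 8 + I * P) / P ^ 2)
        + 4 / r ^ 2 * (e - m * ρ / P) := by
    have hse : ε ^ 2 = P - s := by linarith
    rw [hse]
    field_simp
    ring
  linarith

private theorem la_J (hPR : StPRJ) (N : ℕ) (M : Type) [TopologicalSpace M]
    [ChartedSpace (EE 2) M] [IsManifold (𝓡 2) ∞ M] (J : Set ℝ) (F : M → ℝ → EE N)
    (hF : IsImmJ (n := 2) J F) (t r ε : ℝ) (y : EE N) (ht : t ∈ J) (hr : 0 < r) (hε : 0 < ε) :
    ContMDiff (𝓡 2) 𝓘(ℝ, EE N) 1 (fx F y r ε t) ∧ Continuous (ct F y r t) ∧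
    (∀ q, 0 ≤ ct F y r t q ∧ ct F y r t q ≤ 1 ∧ (q ∉ bl F t y r → ct F y r t q = 0)) ∧
    ∀ q, ct F y r t q * (2 * ε ^ 2 / (‖F q t - y‖ ^ 2 + ε ^ 2) ^ 2)
      ≤ dvg (n := 2) F (fx F y r ε t) q t + inner ℝ (HH (n := 2) F q t) (fx F y r ε t q)
        + 1 / 8 * (ct F y r t q * ‖HH (n := 2) F q t‖ ^ 2)
        + 4 / r ^ 2 * indicator (bl F t y r) (1 : M → ℝ) q := by
  obtain ⟨-, -, -, -, hy⟩ := hPR 2 N M J F hF t ht
  obtain ⟨ρ, hρ, -, hζ⟩ := hy y
  -- continuity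
  have hc : Continuous fun q => F q t - y := by
    have h1 := (hζ (fun _ => 1) contDiff_const).1.continuous
    simpa using h1
  have hfx : fx F y r ε t = fun q => LAz r ε (‖F q t - y‖ ^ 2) • (F q t - y) := by
    funext q
    rw [LAz_eq (sq_nonneg _)]
    rfl
  obtain ⟨hz1, -, -, hz2⟩ := hζ (LAz r ε) (LAz_cd hε)
  have hout : ∀ q, q ∉ bl F t y r → max 0 (1 - ‖F q t - y‖ ^ 2 / r ^ 2) = 0 := by
    intro q hq
    have h1 : r ≤ ‖F q t - y‖ := by
      by_contra hcon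
      exact hq (lt_of_not_ge hcon)
    apply max_eq_left
    have h2 : 1 ≤ ‖F q t - y‖ ^ 2 / r ^ 2 := by
      rw [one_le_div (by positivity)]
      exact pow_le_pow_left₀ hr.le h1 2
    linarith
  have hm0 : ∀ q, 0 ≤ max 0 (1 - ‖F q t - y‖ ^ 2 / r ^ 2) := fun q => le_max_left _ _
  have hm1 : ∀ q, max 0 (1 - ‖F q t - y‖ ^ 2 / r ^ 2) ≤ 1 := fun q => by
    apply max_le (by norm_num)
    have : 0 ≤ ‖F q t - y‖ ^ 2 / r ^ 2 := by positivity
    linarith
  refine ⟨?_, ?_, ?_, ?_⟩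
  · rw [hfx]; exact hz1
  · unfold ct
    exact (continuous_const.max (continuous_const.sub ((hc.norm.pow 2).div_const _))).pow 2
  · intro q
    refine ⟨sq_nonneg _, ?_, ?_⟩
    · unfold ct
      exact pow_le_one₀ (hm0 q) (hm1 q)
    · intro hq
      unfold ct
      rw [hout q hq]
      norm_num
  · intro q
    obtain ⟨hρ0, hρs, hρI⟩ := hρ q
    have hs : 0 ≤ ‖F q t - y‖ ^ 2 := sq_nonneg _
    have he : max 0 (1 - ‖F q t - y‖ ^ 2 / r ^ 2) * ρ q / (‖F q t - y‖ ^ 2 + ε ^ 2)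
        ≤ indicator (bl F t y r) (1 : M → ℝ) q := by
      by_cases hq : q ∈ bl F t y r
      · rw [indicator_of_mem hq]
        have hP : 0 < ‖F q t - y‖ ^ 2 + ε ^ 2 := by positivity
        show _ ≤ (1 : ℝ)
        rw [div_le_one hP]
        have h1 : max 0 (1 - ‖F q t - y‖ ^ 2 / r ^ 2) * ρ q ≤ 1 * ρ q :=
          mul_le_mul_of_nonneg_right (hm1 q) hρ0
        have h2 : 0 < ε ^ 2 := by positivity
        linarith
      · rw [indicator_of_notMem hq, hout q hq]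
        simp
    have key := LA_ineq (m := max 0 (1 - ‖F q t - y‖ ^ 2 / r ^ 2)) hε hr hs hρs hρI rfl he
    rw [hfx]
    have hd := hz2 q
    rw [LAz_eq hs, LAz_deriv hε hs] at hd
    have hin : inner ℝ (HH (n := 2) F q t) (LAz r ε (‖F q t - y‖ ^ 2) • (F q t - y))
        = (max 0 (1 - ‖F q t - y‖ ^ 2 / r ^ 2)) ^ 2 / (‖F q t - y‖ ^ 2 + ε ^ 2)
          * inner ℝ (HH (n := 2) F q t) (F q t - y) := by
      rw [inner_smul_right, LAz_eq hs]
    rw [hd]
    show _ ≤ _ + inner ℝ (HH (n := 2) F q t) (LAz r ε (‖F q t - y‖ ^ 2) • (F q t - y)) + _ + _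
    rw [hin]
    have hcast : ((2 : ℕ) : ℝ) = 2 := by norm_num
    rw [hcast]
    unfold ct
    linarith [key]

private theorem slice_cont {M : Type} [TopologicalSpace M] {V : Type} [TopologicalSpace V] {J : Set ℝ}
    {g : M → ℝ → V} (h : CSTJ J g) {t : ℝ} (ht : t ∈ J) : Continuous (fun q => g q t) := by
  have h1 : Continuous (fun q : M => (q, t)) := by fun_prop
  exact ContinuousOn.comp_continuous h h1 (fun q => ⟨mem_univ _, ht⟩)

theorem hLDJ (hPRJ : StPRJ) (hFVJ : StFVJ) (hMUJ : StMUJ) (hI4J : StI4J) (hSBJ : StSBJ) :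
    StLDJ := by
  intro N M _ _ _ _ _ _ _ J F c χ hS t ht q₀ r hr
  obtain ⟨s, -, hs⟩ := hMUJ 2 N M J F c χ hS
  obtain ⟨hfin, -, hint⟩ := hs t ht
  obtain ⟨hF, hH, -, -⟩ := hI4J 2 N M J F hS.mcf
  have hFc : Continuous (fun q => F q t) := slice_cont hF ht
  have hHc : Continuous (fun q => HH (n := 2) F q t) := slice_cont hH ht
  obtain ⟨μ, hμ⟩ : ∃ μ, μ = muM 2 F c χ t := ⟨_, rfl⟩
  rw [← hμ] at hfin hint ⊢
  have : IsFiniteMeasure μ := ⟨hfin⟩
  obtain ⟨y, hy⟩ : ∃ y, y = F q₀ t := ⟨_, rfl⟩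
  rw [← hy]
  have hblo : IsOpen (bl F t y r) := by
    have h1 : Continuous (fun q => ‖F q t - y‖) := (hFc.sub continuous_const).norm
    exact isOpen_lt h1 continuous_const
  have hblm : MeasurableSet (bl F t y r) := hblo.measurableSet
  have hH2 : Continuous (fun q => ‖HH (n := 2) F q t‖ ^ 2) := hHc.norm.pow 2
  -- the upper bound
  have key : ∀ ε : ℝ, 0 < ε →
      ∫ q, ct F y r t q * (2 * ε ^ 2 / (‖F q t - y‖ ^ 2 + ε ^ 2) ^ 2) ∂μ ≤
        4 / r ^ 2 * μ.real (bl F t y r)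
          + 1 / 8 * ∫ q in bl F t y r, ‖HH (n := 2) F q t‖ ^ 2 ∂μ := by
    intro ε hε
    obtain ⟨hfx, hct, hctp, hineq⟩ := la_J hPRJ N M J F hS.mcf t r ε y ht hr hε
    obtain ⟨hd, hz⟩ := hFVJ 2 N M J F c χ hS t ht (fx F y r ε t) hfx
    rw [← hμ] at hz
    have c1 : Continuous (fun q => ct F y r t q * (2 * ε ^ 2 / (‖F q t - y‖ ^ 2 + ε ^ 2) ^ 2)) := by
      refine hct.mul (Continuous.div continuous_const ?_ ?_)
      · exact (((hFc.sub continuous_const).norm.pow 2).add continuous_const).pow 2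
      · intro q
        positivity
    have c2 : Continuous (fun q => dvg (n := 2) F (fx F y r ε t) q t +
        inner ℝ (HH (n := 2) F q t) (fx F y r ε t q)) := hd.add (hHc.inner hfx.continuous)
    have c3 : Continuous (fun q => 1 / 8 * (ct F y r t q * ‖HH (n := 2) F q t‖ ^ 2)) :=
      continuous_const.mul (hct.mul hH2)
    have i1 := (hint _ c1).1
    have i2 := (hint _ c2).1
    have i3 := (hint _ c3).1
    have i4 : Integrable (indicator (bl F t y r) (1 : M → ℝ)) μ :=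
      (integrable_const (1 : ℝ)).indicator hblm
    have i4' : Integrable (fun q => 4 / r ^ 2 * indicator (bl F t y r) (1 : M → ℝ) q) μ :=
      i4.const_mul _
    have h1 : ∫ q, ct F y r t q * (2 * ε ^ 2 / (‖F q t - y‖ ^ 2 + ε ^ 2) ^ 2) ∂μ ≤
        ∫ q, (((dvg (n := 2) F (fx F y r ε t) q t + inner ℝ (HH (n := 2) F q t) (fx F y r ε t q))
          + 1 / 8 * (ct F y r t q * ‖HH (n := 2) F q t‖ ^ 2))
          + 4 / r ^ 2 * indicator (bl F t y r) (1 : M → ℝ) q) ∂μ := by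
      refine integral_mono i1 ((i2.add i3).add i4') fun q => ?_
      exact hineq q
    have i23 : Integrable (fun q => (dvg (n := 2) F (fx F y r ε t) q t +
        inner ℝ (HH (n := 2) F q t) (fx F y r ε t q)) +
          1 / 8 * (ct F y r t q * ‖HH (n := 2) F q t‖ ^ 2)) μ := i2.add i3
    rw [integral_add i23 i4', integral_add i2 i3, hz, integral_const_mul,
      integral_const_mul, integral_indicator_one hblm, zero_add] at h1
    have h2 : ∫ q, ct F y r t q * ‖HH (n := 2) F q t‖ ^ 2 ∂μ ≤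
        ∫ q in bl F t y r, ‖HH (n := 2) F q t‖ ^ 2 ∂μ := by
      rw [← integral_indicator hblm]
      refine integral_mono (hint _ (hct.mul hH2)).1 ((hint _ hH2).1.indicator hblm) fun q => ?_
      simp only
      by_cases hq : q ∈ bl F t y r
      · rw [indicator_of_mem hq]
        have h3 := (hctp q).2.1
        have h4 : 0 ≤ ‖HH (n := 2) F q t‖ ^ 2 := by positivity
        nlinarith
      · rw [indicator_of_notMem hq, (hctp q).2.2 hq, zero_mul]
    linarith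
  -- the lower bound
  have hsb := hSBJ N M J F c χ hS t ht q₀ univ univ_mem (1 / 2) (by norm_num)
  have hev : ∀ᶠ ε in 𝓝[>] (0 : ℝ), (1 - ε ^ 2 / r ^ 2) ^ 2 / 2 ≤
      4 / r ^ 2 * μ.real (bl F t y r)
          + 1 / 8 * ∫ q in bl F t y r, ‖HH (n := 2) F q t‖ ^ 2 ∂μ := by
    have hlt : ∀ᶠ ε in 𝓝[>] (0 : ℝ), ε < r := by
      have := Iio_mem_nhds hr
      exact mem_nhdsWithin_of_mem_nhds this
    filter_upwards [hsb, hlt, self_mem_nhdsWithin] with ε he1 he2 he3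
    have hε : 0 < ε := he3
    refine le_trans ?_ (key ε hε)
    rw [← hμ, univ_inter, ← hy] at he1
    obtain ⟨A, hA⟩ : ∃ A, A = {p | ‖F p t - y‖ ≤ ε} := ⟨_, rfl⟩
    rw [← hA] at he1
    have hAm : MeasurableSet A := by
      rw [hA]
      have h1 : Continuous (fun q => ‖F q t - y‖) := (hFc.sub continuous_const).norm
      exact (isClosed_le h1 continuous_const).measurableSet
    obtain ⟨-, hct, hctp, -⟩ := la_J hPRJ N M J F hS.mcf t r ε y ht hr hε
    have c1 : Continuous (fun q => ct F y r t q * (2 * ε ^ 2 / (‖F q t - y‖ ^ 2 + ε ^ 2) ^ 2)) := by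
      refine hct.mul (Continuous.div continuous_const ?_ ?_)
      · exact (((hFc.sub continuous_const).norm.pow 2).add continuous_const).pow 2
      · intro q
        positivity
    have hAr : ε ^ 2 ≤ μ.real A := by
      have h1 := ENNReal.toReal_mono (measure_ne_top μ A) he1
      rw [ENNReal.toReal_ofReal (by have := Real.pi_pos; positivity)] at h1
      have h2 : ε ^ 2 ≤ (1 - 1 / 2) * Real.pi * ε ^ 2 := by
        have h3 : (1 : ℝ) ≤ (1 - 1 / 2) * Real.pi := by linarith [Real.pi_gt_three]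
        nlinarith [sq_nonneg ε]
      exact h2.trans h1
    have h1 : ∫ q in A, ((1 - ε ^ 2 / r ^ 2) ^ 2 * (1 / (2 * ε ^ 2))) ∂μ ≤
        ∫ q in A, ct F y r t q * (2 * ε ^ 2 / (‖F q t - y‖ ^ 2 + ε ^ 2) ^ 2) ∂μ := by
      refine setIntegral_mono_on (integrable_const _) (hint _ c1).1.integrableOn hAm fun q hq => ?_
      rw [hA] at hq
      have hq' : ‖F q t - y‖ ≤ ε := hq
      have hsq : ‖F q t - y‖ ^ 2 ≤ ε ^ 2 := pow_le_pow_left₀ (norm_nonneg _) hq' 2
      have hr2 : 0 < r ^ 2 := by positivity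
      have h0 : 0 ≤ 1 - ε ^ 2 / r ^ 2 := by
        rw [sub_nonneg, div_le_one hr2]
        exact pow_le_pow_left₀ hε.le he2.le 2
      have h2 : 1 - ε ^ 2 / r ^ 2 ≤ max 0 (1 - ‖F q t - y‖ ^ 2 / r ^ 2) := by
        refine le_max_of_le_right ?_
        have := div_le_div_of_nonneg_right hsq hr2.le
        linarith
      have h3 : (1 - ε ^ 2 / r ^ 2) ^ 2 ≤ ct F y r t q := by
        unfold ct
        exact pow_le_pow_left₀ h0 h2 2
      have h4 : 1 / (2 * ε ^ 2) ≤ 2 * ε ^ 2 / (‖F q t - y‖ ^ 2 + ε ^ 2) ^ 2 := by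
        rw [div_le_div_iff₀ (by positivity) (by positivity), one_mul]
        have h5 : ‖F q t - y‖ ^ 2 + ε ^ 2 ≤ 2 * ε ^ 2 := by linarith
        have h6 := pow_le_pow_left₀ (by positivity) h5 2
        calc _ ≤ _ := h6
          _ = _ := by ring
      exact mul_le_mul h3 h4 (by positivity) ((hctp q).1)
    have h2 : ∫ q in A, ct F y r t q * (2 * ε ^ 2 / (‖F q t - y‖ ^ 2 + ε ^ 2) ^ 2) ∂μ ≤
        ∫ q, ct F y r t q * (2 * ε ^ 2 / (‖F q t - y‖ ^ 2 + ε ^ 2) ^ 2) ∂μ := by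
      refine setIntegral_le_integral (hint _ c1).1 (Eventually.of_forall fun q => ?_)
      have := (hctp q).1
      positivity
    refine le_trans ?_ (h1.trans h2)
    rw [setIntegral_const, smul_eq_mul]
    have h3 : (1 - ε ^ 2 / r ^ 2) ^ 2 / 2 =
        ε ^ 2 * ((1 - ε ^ 2 / r ^ 2) ^ 2 * (1 / (2 * ε ^ 2))) := by
      field_simp
    rw [h3]
    exact mul_le_mul_of_nonneg_right hAr (by positivity)
  have hlim : Tendsto (fun ε : ℝ => (1 - ε ^ 2 / r ^ 2) ^ 2 / 2) (𝓝[>] 0) (𝓝 (1 / 2)) := by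
    have h1 : Tendsto (fun ε : ℝ => (1 - ε ^ 2 / r ^ 2) ^ 2 / 2) (𝓝 0)
        (𝓝 ((1 - (0 : ℝ) ^ 2 / r ^ 2) ^ 2 / 2)) := by
      have : Continuous (fun ε : ℝ => (1 - ε ^ 2 / r ^ 2) ^ 2 / 2) := by fun_prop
      exact this.tendsto 0
    have h2 : (1 - (0 : ℝ) ^ 2 / r ^ 2) ^ 2 / 2 = 1 / 2 := by norm_num
    rw [h2] at h1
    exact h1.mono_left nhdsWithin_le_nhds
  exact le_of_tendsto hlim hev

end Helper12.MS
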