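import Pool.Agent.Helper35.MS.StJ

/-!
Project MS (MP_925021_gt), module MLJ: the quantities on `M_t`, for families of immersions on an open
set of times. Adapted from `Helper30/CL/M_ML.lean`.
-/

set_option autoImplicit false

namespace Helper12.MS

open Helper35.MS Helper35.PI Helper35.PI2 Helper32.CL Pool.Agent.Helper35.CL
open scoped ContDiff Manifold Topology
open Set Filter

section

variable {n N : ℕ} {M : Type} [TopologicalSpace M] [ChartedSpace (EE n) M]

/-- the flow in the chart of `p` -/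
private noncomputable def ff (n : ℕ) {N : ℕ} {M : Type} [TopologicalSpace M]
    [ChartedSpace (EE n) M] (F : M → ℝ → EE N) (p : M) (z : EE n × ℝ) : EE N :=
  F ((chartAt (EE n) p).symm z.1) z.2

private theorem ff_smooth [IsManifold (𝓡 n) ∞ M] (hI2 : StI2J) {J : Set ℝ} {F : M → ℝ → EE N}
    (hF : IsImmJ (n := n) J F) {t : ℝ} (ht : t ∈ J) (p q : M)
    (hq : q ∈ (chartAt (EE n) p).source) :
    ContDiffAt ℝ ∞ (ff n F p) (chartAt (EE n) p q, t) := by
  have h := hI2 n N M J F hF p
  have hmem : (chartAt (EE n) p).target ×ˢ J ∈ 𝓝 (chartAt (EE n) p q, t) :=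
    prod_mem_nhds ((chartAt (EE n) p).open_target.mem_nhds ((chartAt (EE n) p).map_source hq))
      (hF.op.mem_nhds ht)
  exact h.contDiffAt hmem

private theorem loc_smooth [IsManifold (𝓡 n) ∞ M] (hI2 : StI2J) {J : Set ℝ} {F : M → ℝ → EE N}
    (hF : IsImmJ (n := n) J F) {t : ℝ} (ht : t ∈ J) (p q : M)
    (hq : q ∈ (chartAt (EE n) p).source) :
    ContDiffAt ℝ ∞ (loc (n := n) F p t) (chartAt (EE n) p q) := by
  have h2 := ff_smooth hI2 hF ht p q hq
  have h4 : ContDiffAt ℝ ∞ (fun y : EE n => (y, t)) (chartAt (EE n) p q) :=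
    contDiffAt_id.prodMk contDiffAt_const
  exact h2.comp (chartAt (EE n) p q) h4

/-- all quantities may be computed in any chart -/
private theorem chart_change [IsManifold (𝓡 n) ∞ M] (hIV : StIV) (hI2 : StI2J)
    {J : Set ℝ} {F : M → ℝ → EE N} (hF : IsImmJ (n := n) J F) {t : ℝ} (ht : t ∈ J) (p q : M)
    (hq : q ∈ (chartAt (EE n) p).source) (κ l : ℝ) (c : Co) (hc : c.Smooth) :
    i4 l (loc (n := n) F q t) (chartAt (EE n) q q)
      = i4 l (loc (n := n) F p t) (chartAt (EE n) p q) ∧
    wvl l (loc (n := n) F q t) (chartAt (EE n) q q)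
      = wvl l (loc (n := n) F p t) (chartAt (EE n) p q) ∧
    wf κ l c (loc (n := n) F q t) (chartAt (EE n) q q)
      = wf κ l c (loc (n := n) F p t) (chartAt (EE n) p q) ∧
    dvc (loc (n := n) F q t) (wf κ l c (loc (n := n) F q t)) (chartAt (EE n) q q)
      = dvc (loc (n := n) F p t) (wf κ l c (loc (n := n) F p t)) (chartAt (EE n) p q) := by
  have hqq : q ∈ (chartAt (EE n) q).source := mem_chart_source (EE n) q
  have hxt : chartAt (EE n) q q ∈ (chartAt (EE n) q).target :=
    (chartAt (EE n) q).map_source hqq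
  have hsymm : (chartAt (EE n) q).symm (chartAt (EE n) q q) = q :=
    (chartAt (EE n) q).left_inv hqq
  have hφ : ContDiffAt ℝ ∞ (fun y => chartAt (EE n) p ((chartAt (EE n) q).symm y))
      (chartAt (EE n) q q) := by
    have h := contDiffWithinAt_ext_coord_change (I := 𝓡 n) (n := ∞) (𝕜 := ℝ) p q
      (y := chartAt (EE n) q q) (by
        rw [ext_coord_change_source]
        refine ⟨chartAt (EE n) q q, ?_, rfl⟩
        rw [OpenPartialHomeomorph.trans_source]
        refine ⟨hxt, ?_⟩
        change (chartAt (EE n) q).symm (chartAt (EE n) q q) ∈ (chartAt (EE n) p).source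
        rw [hsymm]
        exact hq)
    rw [ModelWithCorners.range_eq_univ, contDiffWithinAt_univ] at h
    exact h
  have hφx : chartAt (EE n) p ((chartAt (EE n) q).symm (chartAt (EE n) q q))
      = chartAt (EE n) p q := by rw [hsymm]
  have heq : loc (n := n) F q t =ᶠ[𝓝 (chartAt (EE n) q q)]
      (fun y => loc (n := n) F p t (chartAt (EE n) p ((chartAt (EE n) q).symm y))) := by
    have hc : ContinuousAt (chartAt (EE n) q).symm (chartAt (EE n) q q) :=
      (chartAt (EE n) q).continuousAt_symm hxt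
    have hev : ∀ᶠ y in 𝓝 (chartAt (EE n) q q),
        (chartAt (EE n) q).symm y ∈ (chartAt (EE n) p).source := by
      apply hc.eventually_mem
      rw [hsymm]
      exact (chartAt (EE n) p).open_source.mem_nhds hq
    filter_upwards [hev] with y hy
    unfold loc
    rw [(chartAt (EE n) p).left_inv hy]
  have hf : ContDiffAt ℝ ∞ (loc (n := n) F p t)
      (chartAt (EE n) p ((chartAt (EE n) q).symm (chartAt (EE n) q q))) := by
    rw [hφx]
    exact loc_smooth hI2 hF ht p q hq
  have h := hIV n N (loc (n := n) F p t) (loc (n := n) F q t)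
    (fun y => chartAt (EE n) p ((chartAt (EE n) q).symm y)) (chartAt (EE n) q q)
    hf hφ heq (hF.imm q t ht) κ l c hc
  obtain ⟨h1, h2, _, _, h5, h6⟩ := h
  simp only [hφx] at h1 h2 h5 h6
  exact ⟨h1, h2, h5, h6⟩

/-- continuity on space time from formulas in charts -/
private theorem cst_of {V : Type} [TopologicalSpace V] {J : Set ℝ} (hJ : IsOpen J)
    (g : M → ℝ → V)
    (G : M → EE n × ℝ → V)
    (h1 : ∀ p, ∀ q ∈ (chartAt (EE n) p).source, ∀ t ∈ J, g q t = G p (chartAt (EE n) p q, t))
    (h2 : ∀ p, ∀ t ∈ J, ContinuousAt (G p) (chartAt (EE n) p p, t)) : CSTJ J g := by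
  rintro ⟨p, t⟩ ⟨_, ht⟩
  have ht' : t ∈ J := ht
  apply ContinuousAt.continuousWithinAt
  have hp : p ∈ (chartAt (EE n) p).source := mem_chart_source (EE n) p
  have hc : ContinuousAt (fun z : M × ℝ => (chartAt (EE n) p z.1, z.2)) (p, t) := by
    have h3 : ContinuousAt (chartAt (EE n) p) p := (chartAt (EE n) p).continuousAt hp
    have h4 : ContinuousAt (fun z : M × ℝ => chartAt (EE n) p z.1) (p, t) :=
      ContinuousAt.comp (f := fun z : M × ℝ => z.1) (x := (p, t)) h3 continuousAt_fst
    exact h4.prodMk continuousAt_snd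
  have hG : ContinuousAt (fun z : M × ℝ => G p (chartAt (EE n) p z.1, z.2)) (p, t) :=
    ContinuousAt.comp (f := fun z : M × ℝ => (chartAt (EE n) p z.1, z.2)) (x := (p, t))
      (h2 p t ht') hc
  refine hG.congr ?_
  have hev : (chartAt (EE n) p).source ×ˢ J ∈ 𝓝 (p, t) :=
    prod_mem_nhds ((chartAt (EE n) p).open_source.mem_nhds hp) (hJ.mem_nhds ht')
  filter_upwards [hev] with z hz
  exact (h1 p z.1 hz.1 z.2 hz.2).symm

private theorem one_le_top : (1 : WithTop ℕ∞) ≤ ∞ := by
  have : ((1 : ℕ∞) : WithTop ℕ∞) ≤ ((⊤ : ℕ∞) : WithTop ℕ∞) := WithTop.coe_le_coe.2 le_top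
  exact this

/-- differentiability on `M` from formulas in charts -/
private theorem cmd_of [IsManifold (𝓡 n) ∞ M] {V : Type} [NormedAddCommGroup V]
    [NormedSpace ℝ V] (g : M → V) (G : M → EE n → V)
    (h1 : ∀ p, ∀ q ∈ (chartAt (EE n) p).source, g q = G p (chartAt (EE n) p q))
    (h2 : ∀ p, ContDiffAt ℝ ∞ (G p) (chartAt (EE n) p p)) :
    ContMDiff (𝓡 n) 𝓘(ℝ, V) 1 g := by
  intro q
  have hq : q ∈ (chartAt (EE n) q).source := mem_chart_source (EE n) q
  have hv1 : ContMDiffAt 𝓘(ℝ, EE n) 𝓘(ℝ, V) 1 (G q) (chartAt (EE n) q q) :=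
    ((h2 q).of_le one_le_top).contMDiffAt
  have hc : ContMDiffAt (𝓡 n) (𝓡 n) 1 (chartAt (EE n) q) q := by
    have := (contMDiffOn_chart (I := 𝓡 n) (n := ∞) (H := EE n) (x := q)).contMDiffAt
      ((chartAt (EE n) q).open_source.mem_nhds hq)
    exact this.of_le one_le_top
  have h := ContMDiffAt.comp q (hv1 : ContMDiffAt (𝓡 n) 𝓘(ℝ, V) 1 (G q)
    (chartAt (EE n) q q)) hc
  refine h.congr_of_eventuallyEq ?_
  filter_upwards [(chartAt (EE n) q).open_source.mem_nhds hq] with q' hq'
  exact h1 q q' hq'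

/-- slices of a smooth function of space and time -/
private theorem slice_smooth {V : Type} [NormedAddCommGroup V] [NormedSpace ℝ V]
    {G : EE n × ℝ → V} {y : EE n} {t : ℝ} (h : ContDiffAt ℝ ∞ G (y, t)) :
    ContDiffAt ℝ ∞ (fun y' => G (y', t)) y := by
  have h4 : ContDiffAt ℝ ∞ (fun y : EE n => (y, t)) y :=
    contDiffAt_id.prodMk contDiffAt_const
  exact h.comp y h4

private theorem mcv_perp (hNR : StNR) (f : EE n → EE N) (x : EE n) (hf : LI f x) :
    nrm f x (mcv f x) = mcv f x := by
  obtain ⟨h1, _, _, h4, _⟩ := hNR n N f x hf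
  apply h4
  intro i
  unfold mcv
  rw [sum_inner]
  apply Finset.sum_eq_zero
  intro a _
  rw [sum_inner]
  apply Finset.sum_eq_zero
  intro b _
  rw [inner_smul_left]
  unfold sff
  rw [h1, mul_zero]

end

/-- Module MLJ. -/
theorem hMLJ (hSS : StSS) (hIV : StIV) (hI2 : StI2J) (hI3 : StI3J) (_hI4 : StI4J) (hNR : StNR) :
    StMLJ := by
  intro n N M _ _ _ J F hF κ l c hc
  have hLI : ∀ (p q : M) (t : ℝ), t ∈ J → q ∈ (chartAt (EE n) p).source →
      LI (fun y => ff n F p (y, t)) (chartAt (EE n) p q) := fun p q t ht hq =>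
    (hI3 n N M J F hF p q t ht hq).1
  have hsm : ∀ (p q : M) (t : ℝ), t ∈ J → q ∈ (chartAt (EE n) p).source →
      ContDiffAt ℝ ∞ (ff n F p) (chartAt (EE n) p q, t) := fun p q t ht hq =>
    ff_smooth hI2 hF ht p q hq
  have hself : ∀ q : M, q ∈ (chartAt (EE n) q).source := fun q => mem_chart_source (EE n) q
  -- smoothness in the chart of `p`
  have S := fun (p q : M) (t : ℝ) (ht : t ∈ J) (hq : q ∈ (chartAt (EE n) p).source)
      (κ l : ℝ) (c : Co) (hc : c.Smooth) =>
    hSS n N (ff n F p) (chartAt (EE n) p q, t) (hsm p q t ht hq) (hLI p q t ht hq) κ l c hc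
  -- change of charts
  have C := fun (p q : M) (t : ℝ) (ht : t ∈ J) (hq : q ∈ (chartAt (EE n) p).source) =>
    chart_change hIV hI2 hF ht p q hq κ l c hc
  have hφ4 : ∀ (p q : M) (t : ℝ), t ∈ J → q ∈ (chartAt (EE n) p).source →
      i4F n l F q t = i4 l (fun y => ff n F p (y, t)) (chartAt (EE n) p q) := by
    intro p q t ht hq
    exact (C p q t ht hq).1
  have hw : ∀ (p q : M) (t : ℝ), t ∈ J → q ∈ (chartAt (EE n) p).source →
      wvF n l F q t = wvl l (fun y => ff n F p (y, t)) (chartAt (EE n) p q) := by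
    intro p q t ht hq
    exact (C p q t ht hq).2.1
  have hW : ∀ (p q : M) (t : ℝ), t ∈ J → q ∈ (chartAt (EE n) p).source →
      WFd n κ l c F t q = wf κ l c (fun y => ff n F p (y, t)) (chartAt (EE n) p q) := by
    intro p q t ht hq
    exact (C p q t ht hq).2.2.1
  -- the divergence
  have hD : ∀ (p q : M) (t : ℝ), t ∈ J → q ∈ (chartAt (EE n) p).source →
      dvg (n := n) F (WFd n κ l c F t) q t = dvc (fun y => ff n F p (y, t))
        (wf κ l c (fun y => ff n F p (y, t))) (chartAt (EE n) p q) := by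
    intro p q t ht hq
    have h1 := (C p q t ht hq).2.2.2
    have hxt : chartAt (EE n) q q ∈ (chartAt (EE n) q).target :=
      (chartAt (EE n) q).map_source (hself q)
    have he : (fun y => WFd n κ l c F t ((chartAt (EE n) q).symm y))
        =ᶠ[𝓝 (chartAt (EE n) q q)] wf κ l c (loc (n := n) F q t) := by
      filter_upwards [(chartAt (EE n) q).open_target.mem_nhds hxt] with y hy
      have h2 := hW q ((chartAt (EE n) q).symm y) t ht ((chartAt (EE n) q).map_target hy)
      rw [(chartAt (EE n) q).right_inv hy] at h2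
      exact h2
    have h3 : dvg (n := n) F (WFd n κ l c F t) q t
        = dvc (loc (n := n) F q t) (wf κ l c (loc (n := n) F q t)) (chartAt (EE n) q q) := by
      unfold dvg dvc
      rw [he.fderiv_eq]
    rw [h3]
    exact h1
  -- the function of time
  have hΦs : ∀ (p q : M) (t : ℝ), t ∈ J → q ∈ (chartAt (EE n) p).source →
      ContDiffAt ℝ ∞ (fun z : EE n × ℝ => c.φ (i4 l (fun y => ff n F p (y, z.2)) z.1))
        (chartAt (EE n) p q, t) := by
    intro p q t ht hq
    exact hc.sφ.contDiffAt.comp _ (S p q t ht hq κ l c hc).1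
  have hder : ∀ (p q : M) (t : ℝ), t ∈ J → q ∈ (chartAt (EE n) p).source →
      HasDerivAt (fun s => c.φ (i4F n l F q s))
        (jt (fun z : EE n × ℝ => c.φ (i4 l (fun y => ff n F p (y, z.2)) z.1))
          (chartAt (EE n) p q, t)) t := by
    intro p q t ht hq
    have h1 : HasFDerivAt (fun z : EE n × ℝ => c.φ (i4 l (fun y => ff n F p (y, z.2)) z.1))
        (fderiv ℝ (fun z : EE n × ℝ => c.φ (i4 l (fun y => ff n F p (y, z.2)) z.1))
          (chartAt (EE n) p q, t)) (chartAt (EE n) p q, t) :=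
      ((hΦs p q t ht hq).differentiableAt (by simp)).hasFDerivAt
    have h2 : HasDerivAt (fun s : ℝ => ((chartAt (EE n) p q, s) : EE n × ℝ)) (0, 1) t :=
      (hasDerivAt_const t (chartAt (EE n) p q)).prodMk (hasDerivAt_id t)
    have h3 := h1.comp_hasDerivAt t h2
    refine h3.congr_of_eventuallyEq ?_
    filter_upwards [hF.op.mem_nhds ht] with s hs
    simp only [Function.comp_apply]
    rw [hφ4 p q s hs hq]
  refine ⟨?_, ?_, ?_, ?_, ?_, ?_, ?_, ?_⟩
  · intro t ht
    refine ⟨?_, ?_, ?_, ?_, ?_⟩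
    · refine cmd_of _ (fun p => wf κ l c (fun y => ff n F p (y, t)))
        (fun p q hq => hW p q t ht hq) (fun p => ?_)
      exact slice_smooth (S p p t ht (hself p) κ l c hc).2.2.2.2.1
    · intro q
      exact (S q q t ht (hself q) κ l c hc).2.2.2.2.2.2.2.2
    · intro q
      exact (S q q t ht (hself q) κ l c hc).2.2.2.2.2.2.2.1
    · refine cmd_of _ (fun p y' => c.φ (i4 l (fun y => ff n F p (y, t)) y'))
        (fun p q hq => by rw [hφ4 p q t ht hq]) (fun p => ?_)
      exact slice_smooth (hΦs p p t ht (hself p))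
    · intro q
      have hxt : chartAt (EE n) q q ∈ (chartAt (EE n) q).target :=
        (chartAt (EE n) q).map_source (hself q)
      have he : (fun y => c.φ (i4F n l F ((chartAt (EE n) q).symm y) t))
          =ᶠ[𝓝 (chartAt (EE n) q q)] (fun y => c.φ (i4 l (loc (n := n) F q t) y)) := by
        filter_upwards [(chartAt (EE n) q).open_target.mem_nhds hxt] with y hy
        have h2 := hφ4 q ((chartAt (EE n) q).symm y) t ht ((chartAt (EE n) q).map_target hy)
        rw [(chartAt (EE n) q).right_inv hy] at h2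
        rw [h2]
        rfl
      unfold WFd gdM wf
      rw [he.fderiv_eq]
      refine Finset.sum_congr rfl fun k _ => Finset.sum_congr rfl fun m _ => ?_
      congr 2
      unfold wc
      simp only [zero_mul, zero_div, neg_zero, Real.exp_zero, one_mul, add_zero]
      rfl
  · refine cst_of hF.op _ (fun p z => dvc (fun y => ff n F p (y, z.2))
      (wf κ l c (fun y => ff n F p (y, z.2))) z.1)
      (fun p q hq t ht => hD p q t ht hq) (fun p t ht => ?_)
    exact (S p p t ht (hself p) κ l c hc).2.2.2.2.2.1.continuousAt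
  · refine cst_of hF.op _ (fun p z => i4 l (fun y => ff n F p (y, z.2)) z.1)
      (fun p q hq t ht => hφ4 p q t ht hq) (fun p t ht => ?_)
    exact (S p p t ht (hself p) κ l c hc).1.continuousAt
  · refine cst_of hF.op _ (fun p z => wvl l (fun y => ff n F p (y, z.2)) z.1)
      (fun p q hq t ht => hw p q t ht hq) (fun p t ht => ?_)
    exact (S p p t ht (hself p) κ l c hc).2.1.continuousAt
  · refine cst_of hF.op _ (fun p z => c.φ (i4 l (fun y => ff n F p (y, z.2)) z.1))
      (fun p q hq t ht => by rw [hφ4 p q t ht hq]) (fun p t ht => ?_)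
    exact (hΦs p p t ht (hself p)).continuousAt
  · refine cst_of hF.op _ (fun p => jt (fun z : EE n × ℝ =>
        c.φ (i4 l (fun y => ff n F p (y, z.2)) z.1)))
      (fun p q hq t ht => (hder p q t ht hq).deriv) (fun p t ht => ?_)
    have h1 : ContDiffAt ℝ 0 (fderiv ℝ (fun z : EE n × ℝ =>
        c.φ (i4 l (fun y => ff n F p (y, z.2)) z.1))) (chartAt (EE n) p p, t) :=
      (hΦs p p t ht (hself p)).fderiv_right (m := 0) (by simp)
    exact (h1.continuousAt).clm_apply continuousAt_const
  · intro q t ht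
    have := hder q q t ht (hself q)
    rw [this.deriv]
    exact this
  · intro q t ht
    have hli : LI (loc (n := n) F q t) (chartAt (EE n) q q) := hF.imm q t ht
    obtain ⟨h1, h2, h3, h4, h5, h6, h7, h8⟩ :=
      hNR n N (loc (n := n) F q t) (chartAt (EE n) q q) hli
    have hFq : loc (n := n) F q t (chartAt (EE n) q q) = F q t := by
      unfold loc
      rw [(chartAt (EE n) q).left_inv (hself q)]
    have hw0 : wvF n 0 F q t = nrm (loc (n := n) F q t) (chartAt (EE n) q q) (F q t) := by
      unfold wvF wvl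
      rw [zero_smul, add_zero, hFq]
    refine ⟨?_, ?_, ?_⟩
    · unfold wvF wvl HH
      rw [zero_smul, add_zero]
    · rw [hw0, h7]
      congr 1
      exact mcv_perp hNR _ _ hli
    · rw [hw0]
      exact h8 _

end Helper12.MS
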